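import Pool.Agent.Work.MP_90924b_an.Wedge

set_option autoImplicit false

/-!
# Hyperplane zero sets of bounded holomorphic functions in wedges

For every `N ≥ 2`, every `ρ ∈ (0, 1)`, `c > 0`, `q ∈ [1 / 2, 1)` and every boundary point `e₀` of
the unit ball of `ℂ^N` there is a countable subset `A` of the `(ρ, c, q)`-wedge with top at `e₀`
such that the union of the hyperplane sections `T a`, `a ∈ A`, is a zero set for the bounded
holomorphic functions on the ball, but the sum of `1 - |a|^2` over `A` diverges.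
-/

namespace Pool.Agent.Results.MP_90924b_an.AllWedges

open Pool.Agent.Work.MP_90924b_an

/-- The open unit ball of `ℂ^N`. -/
def B (N : ℕ) : Set (EuclideanSpace ℂ (Fin N)) := {z | ‖z‖ < 1}

/-- The hermitian product `(z, w) = ∑ z_j conj(w_j)` of `ℂ^N`. -/
noncomputable def herm {N : ℕ} (z w : EuclideanSpace ℂ (Fin N)) : ℂ :=
  ∑ j, z j * (starRingEnd ℂ) (w j)

/-- The hyperplane section `T_a = {z ∈ B : (z, a) = |a|^2}`. -/
def T {N : ℕ} (a : EuclideanSpace ℂ (Fin N)) : Set (EuclideanSpace ℂ (Fin N)) :=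
  {z | z ∈ B N ∧ herm z a = ((‖a‖ ^ 2 : ℝ) : ℂ)}

/-- The set `E(e₀)` of the points of the ball near `e₀`. -/
def nearTop {N : ℕ} (c q : ℝ) (e₀ : EuclideanSpace ℂ (Fin N)) :
    Set (EuclideanSpace ℂ (Fin N)) :=
  {z | z ∈ B N ∧ |(1 - herm z e₀).im| ≤ c * (1 - herm z e₀).re ∧
    ‖z‖ ^ 2 - ‖herm z e₀‖ ^ 2 ≤ q * (1 - ‖herm z e₀‖ ^ 2) ∧
    (1 - herm z e₀).re ≤ 1 / (c ^ 2 + 1)}

/-- The `(ρ, c, q)`-wedge with top at `e₀`. -/
def wedge {N : ℕ} (ρ c q : ℝ) (e₀ : EuclideanSpace ℂ (Fin N)) :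
    Set (EuclideanSpace ℂ (Fin N)) :=
  {z | z ∈ B N ∧ ‖z‖ < ρ} ∪ nearTop c q e₀

/-- `E` is a zero set for `H^∞` of the ball: `E = f⁻¹(0)` for a bounded holomorphic function `f`
on the ball which is not identically zero. -/
def IsZeroSet {N : ℕ} (E : Set (EuclideanSpace ℂ (Fin N))) : Prop :=
  ∃ f : EuclideanSpace ℂ (Fin N) → ℂ, DifferentiableOn ℂ f (B N) ∧
    (∃ M : ℝ, ∀ z ∈ B N, ‖f z‖ ≤ M) ∧ (∃ z ∈ B N, f z ≠ 0) ∧ E = {z | z ∈ B N ∧ f z = 0}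

theorem herm_eq {N : ℕ} (z w : EuclideanSpace ℂ (Fin N)) : herm z w = inner ℂ w z := by
  rw [PiLp.inner_apply]
  unfold herm
  refine Finset.sum_congr rfl fun j _ => ?_
  rw [RCLike.inner_apply]

theorem B_eq (N : ℕ) : B N = Metric.ball 0 1 := by
  ext z
  rw [mem_ball_zero_iff]
  rfl

/-- A unit vector orthogonal to a given one. -/
theorem exists_orth {N : ℕ} (hN : 2 ≤ N) (e₀ : EuclideanSpace ℂ (Fin N)) (h0 : ‖e₀‖ = 1) :
    ∃ e₁ : EuclideanSpace ℂ (Fin N), ‖e₁‖ = 1 ∧ inner ℂ e₀ e₁ = 0 := by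
  obtain ⟨n, rfl⟩ : ∃ n, N = n + 1 := ⟨N - 1, by omega⟩
  have : Fact (Module.finrank ℂ (EuclideanSpace ℂ (Fin (n + 1))) = n + 1) :=
    ⟨by rw [finrank_euclideanSpace, Fintype.card_fin]⟩
  have hne : e₀ ≠ 0 := by
    intro h
    rw [h, norm_zero] at h0
    exact zero_ne_one h0
  have h1 := Submodule.finrank_orthogonal_span_singleton (𝕜 := ℂ) (n := n) hne
  have h2 : (Submodule.span ℂ {e₀})ᗮ ≠ ⊥ := by
    intro h
    rw [h, finrank_bot] at h1
    omega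
  obtain ⟨x, hx, hx0⟩ := Submodule.exists_mem_ne_zero_of_ne_bot h2
  rw [Submodule.mem_orthogonal_singleton_iff_inner_right] at hx
  refine ⟨((‖x‖ : ℂ))⁻¹ • x, ?_, ?_⟩
  · rw [norm_smul, norm_inv, Complex.norm_real, norm_norm, inv_mul_cancel₀]
    exact norm_ne_zero_iff.2 hx0
  · rw [inner_smul_right, hx, mul_zero]

/-- The implication of the problem fails for all wedges with `q ≥ 1 / 2`. -/
theorem result {N : ℕ} (hN : 2 ≤ N) {ρ c q : ℝ} (_hρ0 : 0 < ρ) (_hρ1 : ρ < 1) (hc : 0 < c)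
    (hq : 1 / 2 ≤ q) (_hq1 : q < 1) (e₀ : EuclideanSpace ℂ (Fin N)) (h0 : ‖e₀‖ = 1) :
    ∃ A : Set (EuclideanSpace ℂ (Fin N)), A.Countable ∧ A ⊆ wedge ρ c q e₀ ∧
      IsZeroSet (⋃ a ∈ A, T a) ∧
      ¬ Summable (fun a : A => 1 - ‖(a : EuclideanSpace ℂ (Fin N))‖ ^ 2) := by
  obtain ⟨e₁, h1, h01⟩ := exists_orth hN e₀ h0
  have hs : (0 : ℝ) < c⁻¹ := inv_pos.2 hc
  have hsc : c⁻¹ * c ≤ 1 := (inv_mul_cancel₀ hc.ne').le
  refine ⟨pt e₀ e₁ '' Lam c⁻¹, (Lam_countable hs).image _, ?_, ?_, not_summable h0 h1 h01 hs⟩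
  · intro a ha
    right
    have h2 := wedge_cond h0 h1 h01 hc hs hsc hq ha
    refine ⟨?_, ?_⟩
    · rw [B_eq]
      exact h2.1
    · rw [herm_eq]
      exact h2.2
  · refine ⟨fw e₀ e₁ c⁻¹, ?_, ⟨1, fun z hz => ?_⟩, ⟨0, ?_, ?_⟩, ?_⟩
    · rw [B_eq]
      exact fw_diff h0 h1 h01
    · rw [B_eq] at hz
      exact fw_bound h0 h1 h01 hz
    · rw [B_eq]
      simp
    · unfold fw
      simp
    · ext z
      simp only [Set.mem_iUnion, Set.mem_ofPred_eq]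
      constructor
      · rintro ⟨a, ha, hz, haz⟩
        refine ⟨hz, ?_⟩
        rw [B_eq] at hz
        rw [zero_iff h0 h1 h01 hz]
        rw [herm_eq] at haz
        exact ⟨a, ha, haz⟩
      · rintro ⟨hz, hfz⟩
        have hz' := hz
        rw [B_eq] at hz'
        rw [zero_iff h0 h1 h01 hz'] at hfz
        obtain ⟨a, ha, haz⟩ := hfz
        refine ⟨a, ha, hz, ?_⟩
        rw [herm_eq]
        exact haz

end Pool.Agent.Results.MP_90924b_an.AllWedges
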